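import Pool.Agent.Lib.helper3.BishopE

set_option autoImplicit false
open MeasureTheory H3Bis

namespace Pool.Agent.Results.MP_dbea21_an.Counterexample

/-- There are a compact metric space `S`, an algebra `A` satisfying the standing hypotheses, an
extremal measure `μ` and a greatest element `σ` of `K(μ)` such that `{f + conj g : f, g ∈ A}` is
not weak-star dense in `L^∞(σ)`. -/
theorem result :
    ∃ (S : Type) (_ : MetricSpace S) (_ : CompactSpace S) (_ : MeasurableSpace S)
      (_ : BorelSpace S) (A : Subalgebra ℂ C(S, ℂ)) (μ σ : FiniteMeasure S),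
      Bishop A ∧ Extremal A μ ∧ Greatest A (Kset A μ) σ ∧ wcl σ (clsSum A σ) ≠ Set.univ := by
  refine ⟨SS, inferInstance, inferInstance, inferInstance, inferInstance, AA, mu1, mu1, bishop_AA,
    extremal_mu1, ?_, not_dense_mu1⟩
  rw [K_mu1]
  exact ⟨rfl, fun ν hν f _ => by rw [Set.mem_singleton_iff.1 hν]⟩

end Pool.Agent.Results.MP_dbea21_an.Counterexample
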